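import Pool.Agent.H260Z.DAD.Main

/-!
# Finite dynamic asymptotic dimension does not imply finite dynamical complexity
-/

set_option autoImplicit false

namespace Pool.Agent.Results.MP_153b2f_an.ANotFDC

open Pool.Agent.H260Z.DAD

theorem result : ∃ (G X : Type) (_ : TopologicalSpace G) (_ : TopologicalSpace X)
    (_ : LocallyCompactSpace G) (_ : T2Space G) (_ : SecondCountableTopology G)
    (_ : CompactSpace X) (_ : TotallyDisconnectedSpace X) (𝒢 : EtaleGroupoid G X),
    Principal 𝒢 ∧ DADAtMost 𝒢 12 ∧ ¬ FDC 𝒢 :=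
  main

end Pool.Agent.Results.MP_153b2f_an.ANotFDC
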